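import Pool.Agent.UMG.StmtsB

/-!
# Squad UMG (MP_34c13a_lc), block B, row STA: the structure of a concatenation
-/

set_option autoImplicit false

namespace Pool.Agent.UMG.B.H81

open Finset Pool.Agent.UMG Pool.Agent.UMG.B

/-- **STA** -/
theorem sta : StaStmt := by
  intro c c'
  induction c with
  | nil =>
    haveI : IsEmpty (Vc []) := inferInstanceAs (IsEmpty Empty)
    haveI : IsEmpty (Hc []) := inferInstanceAs (IsEmpty Empty)
    exact SI.empty (nuc []) (gc []) (nuc c') (gc c')
  | cons a c ih =>
    obtain ⟨l, p⟩ := a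
    exact (SI.assoc (nup l p) (gp l p) (nuc c) (gc c) (nuc c') (gc c')).trans
      ((SI.refl (nup l p) (gp l p)).sum ih)

end Pool.Agent.UMG.B.H81
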