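import Pool.Agent.UMG.StmtsA

/-!
# Squad UMG (MP_34c13a_lc), row FLD: bounds for the grid fields
-/

set_option autoImplicit false

namespace Pool.Agent.UMG.H81

open Finset

/-- **FLD** -/
theorem fld_bound (sqb : SqbStmt) : FldStmt := by
  intro K M b j hK hM hb
  have hKr : (6 : ℝ) ≤ K := by exact_mod_cast hK
  have hMr : (3 : ℝ) ≤ M := by exact_mod_cast hM
  have hs1 : 1 ≤ Real.sqrt M := Real.one_le_sqrt.2 (by linarith)
  have hss : Real.sqrt M ^ 2 = M := Real.sq_sqrt (by linarith)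
  unfold fld
  split_ifs with hj
  · obtain ⟨h1, h2⟩ := sqb M j (b j + 1)
    have hjr : (j : ℝ) ≤ K := by exact_mod_cast hj
    have hbr : ((b j + 1 : ℕ) : ℝ) ≤ M + 1 := by
      push_cast
      have : (b j : ℝ) ≤ M := by exact_mod_cast hb j
      linarith
    have hite0 : (0 : ℝ) ≤ (if 2 ∣ j then 1 / 2 else 0) := by split_ifs <;> norm_num
    have hite1 : (if 2 ∣ j then (1 / 2 : ℝ) else 0) ≤ 1 / 2 := by split_ifs <;> norm_num
    refine ⟨lt_of_le_of_lt (add_nonneg (Real.sqrt_nonneg _) hite0) h1, h2.trans ?_⟩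
    have h3 : Real.sqrt ((j : ℝ) * ((b j + 1 : ℕ) : ℝ)) ≤ (K : ℝ) / 2 * Real.sqrt M := by
      rw [Real.sqrt_le_iff]
      refine ⟨by positivity, ?_⟩
      have h4 : (j : ℝ) * ((b j + 1 : ℕ) : ℝ) ≤ K * (M + 1) :=
        mul_le_mul hjr hbr (Nat.cast_nonneg _) (by linarith)
      have h5 : ((K : ℝ) / 2 * Real.sqrt M) ^ 2 = K * (K * M / 4) := by
        rw [mul_pow, hss]
        ring
      rw [h5]
      refine h4.trans (mul_le_mul_of_nonneg_left ?_ (by linarith))
      nlinarith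
    have h6 : 1 / ((M : ℝ) + 1) ≤ 1 / 4 := by
      apply one_div_le_one_div_of_le (by norm_num)
      linarith
    nlinarith
  · unfold be
    refine ⟨by positivity, ?_⟩
    have h1 : (Nat.sqrt M : ℝ) ≤ Real.sqrt M := Real.nat_sqrt_le_real_sqrt
    push_cast
    nlinarith

end Pool.Agent.UMG.H81
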