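import Pool.Agent.UMG.StmtsD

/-!
# Squad UMG (MP_34c13a_lc), block D, row MXR: mixed radix
-/

set_option autoImplicit false

namespace Pool.Agent.UMG.D.H81

open Finset

theorem sum_range_mul (P Q : ℕ) (f : ℕ → ℕ) :
    ∑ z ∈ range (P * Q), f z = ∑ q ∈ range Q, ∑ z ∈ range P, f (P * q + z) := by
  induction Q with
  | zero => simp
  | succ Q ih => rw [Nat.mul_succ, Finset.sum_range_add, ih, Finset.sum_range_succ]

/-- **MXR** -/
theorem mxr : MxrStmt := by
  intro J B ψ
  induction J with
  | zero => simp
  | succ J ih =>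
    rw [Finset.prod_range_succ B J, sum_range_mul, Finset.prod_range_succ (fun j =>
      ∑ r ∈ range (B j), ψ j r), ← ih, Finset.mul_sum]
    refine Finset.sum_congr rfl fun q hq => ?_
    rw [Finset.sum_mul]
    refine Finset.sum_congr rfl fun z hz => ?_
    have hq' := Finset.mem_range.1 hq
    have hz' := Finset.mem_range.1 hz
    have hP : 0 < ∏ j ∈ range J, B j := lt_of_le_of_lt (Nat.zero_le _) hz'
    rw [Finset.prod_range_succ]
    congr 1
    · refine Finset.prod_congr rfl fun j hj => ?_
      have hj' := Finset.mem_range.1 hj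
      have hdvd : (∏ i ∈ range (j + 1), B i) ∣ ∏ i ∈ range J, B i :=
        Finset.prod_dvd_prod_of_subset _ _ _ (Finset.range_subset_range.2 hj')
      obtain ⟨R, hR⟩ := hdvd
      rw [Finset.prod_range_succ] at hR
      have hpj : 0 < ∏ i ∈ range j, B i := by
        rcases Nat.eq_zero_or_pos (∏ i ∈ range j, B i) with h | h
        · rw [h, zero_mul, zero_mul] at hR
          omega
        · exact h
      congr 1
      have h1 : (∏ i ∈ range J, B i) * q + z =
          z + (∏ i ∈ range j, B i) * (B j * (R * q)) := by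
        rw [hR]
        ring
      rw [h1, Nat.add_mul_div_left _ _ hpj, Nat.add_mul_mod_self_left]
    · congr 1
      rw [Nat.mul_add_div hP, Nat.div_eq_of_lt hz', add_zero, Nat.mod_eq_of_lt hq']

end Pool.Agent.UMG.D.H81
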